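import Pool.Agent.Q47.Cube.Final

/-!
# The order of a regular rep-cube is a sum of two squares

If `k` is not a sum of two squares, then there is no regular rep-cube of order `k`. More precisely,
if a polyomino with `N` unit squares is a net of a cube, then `6 N` is a sum of two squares.

Idea of the proof. The polyomino is also divided by a second square grid, the developed edges of the
cube, because all closed loops of the surface have holonomy a multiple of a right angle. At a vertex
of the cube three right angles meet; since this is not a multiple of a straight angle, one of the
points of the polyomino which are glued to the vertex is a corner of the polyomino, so it is a point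
of the integer lattice. So the two lattices have two common points, and the square `N / 6` of the
length of the edges is a quotient of two sums of two squares.
-/

namespace Pool.Agent.Results.MP_1e8db4_co.SumOfTwoSquares

open Q47.Cube

/-- There is no regular rep-cube whose order is not a sum of two squares; and the number `N` of unit
squares of every polyomino which is a net of a cube is such that `6 N` is a sum of two squares. -/
theorem result :
    (∀ k : ℕ, (¬ ∃ a b : ℕ, k = a ^ 2 + b ^ 2) → ¬ ∃ s, IsRegularRepCube s k) ∧
    ∀ s, IsPolyomino s → IsCubeNet s → ∃ a b : ℕ, 6 * s.card = a ^ 2 + b ^ 2 :=
  ⟨fun _ hk ⟨_, h⟩ => hk (rep_cube h), fun _ h1 h2 => net_area h1 h2⟩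

end Pool.Agent.Results.MP_1e8db4_co.SumOfTwoSquares
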